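import Mathlib

set_option autoImplicit false

namespace Pool.Agent.H.MP_fafee5_lc

/-- Closed submonoids of the full transformation monoid (pointwise convergence). -/
def IsM (S : Set (ℕ → ℕ)) : Prop := IsClosed S ∧ id ∈ S ∧ ∀ f ∈ S, ∀ g ∈ S, f ∘ g ∈ S

/-- Semigroup homomorphisms for composition. -/
def IsHom {S T : Set (ℕ → ℕ)} (φ : S → T) : Prop :=
  ∀ f g h : S, (h : ℕ → ℕ) = f.1 ∘ g.1 → (φ h : ℕ → ℕ) = (φ f).1 ∘ (φ g).1

/-- Automatic continuity. -/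
def AutCont (S : Set (ℕ → ℕ)) : Prop :=
  ∀ T : Set (ℕ → ℕ), IsM T → ∀ φ : S → T, IsHom φ → Continuous φ

/-- Automatic homeomorphicity. -/
def AutHomeo (S : Set (ℕ → ℕ)) : Prop :=
  ∀ T : Set (ℕ → ℕ), IsM T → ∀ φ : S → T, IsHom φ → Function.Bijective φ → IsHomeomorph φ

/-- The invertible elements have finitely many orbits on n-tuples, for every n ≥ 1. -/
def Oligo (S : Set (ℕ → ℕ)) : Prop :=
  ∀ n : ℕ, 1 ≤ n → ∃ R : Finset (Fin n → ℕ), ∀ x : Fin n → ℕ, ∃ r ∈ R, ∃ g ∈ S, ∃ g' ∈ S,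
    g ∘ g' = id ∧ g' ∘ g = id ∧ g ∘ x = r

end Pool.Agent.H.MP_fafee5_lc
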