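import Mathlib
import Pool.Agent.H.MP_fafee5_lc.Defs

set_option autoImplicit false

open Filter Topology

namespace Pool.Agent.H.MP_fafee5_lc

theorem nhds_iff {S : Set (ℕ → ℕ)} (f : S) (p : S → Prop) :
    (∀ᶠ g in 𝓝 f, p g) ↔ ∃ k, ∀ g : S, (∀ i < k, g.1 i = f.1 i) → p g := by
  rw [nhds_subtype, eventually_comap, nhds_pi, Filter.eventually_iff, mem_pi]
  constructor
  · rintro ⟨I, hI, t, ht, h⟩
    obtain ⟨k, hk⟩ := hI.bddAbove
    exact ⟨k + 1, fun g hg => h (fun i hi => by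
      rw [hg i (Nat.lt_succ_of_le (hk hi))]; exact mem_of_mem_nhds (ht i)) g rfl⟩
  · rintro ⟨k, h⟩
    refine ⟨Set.Iio k, Set.finite_Iio k, fun i => {f.1 i}, fun i => by simp, ?_⟩
    rintro _ hg g rfl
    exact h g hg

end Pool.Agent.H.MP_fafee5_lc
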